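import Mathlib
import Pool.Agent.H723R3.Beur.LC

set_option autoImplicit false

open MeasureTheory Topology Filter Set
open scoped ENNReal

namespace Pool.Agent.H881R3.Beur

open _root_.Beur

/-- The functional analytic part. -/
theorem abs_part {A : Type*} [NormedAddCommGroup A] [NormedSpace ℂ A] (m : A →L[ℂ] A →L[ℂ] A)
    (l : Filter A) (M : ℝ) (hM : ∀ᶠ b in l, ‖b‖ ≤ M) (hm : ∀ a, Tendsto (fun b => m a b) l (𝓝 a))
    (h : StrongDual ℂ A) (h1 : ∃ᶠ b in l, h b = 1) (h2 : ∃ᶠ b in l, h b = -1) :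
    ∃ n : StrongDual ℂ (StrongDual ℂ A), n ≠ 0 ∧ ∀ Φ, arens m Φ n = 0 := by
  set W0 : Submodule ℂ (StrongDual ℂ A) :=
    Submodule.span ℂ (Set.range fun p : StrongDual ℂ A × A => dotA m p.1 p.2) with hW0
  set W : Submodule ℂ (StrongDual ℂ A) := W0.topologicalClosure with hW
  have hM0 : 0 ≤ M := by
    obtain ⟨b, -, hb⟩ := (h1.and_eventually hM).exists
    exact (norm_nonneg _).trans hb
  have key0 : ∀ w ∈ W0, ∀ ε : ℝ, 0 < ε → ∃ s ∈ l, ∀ b ∈ s, ∀ b' ∈ s, ‖w b - w b'‖ ≤ ε := by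
    intro w hw
    induction hw using Submodule.span_induction with
    | mem x hx =>
      obtain ⟨⟨f, a⟩, rfl⟩ := hx
      intro ε hε
      have ht : Tendsto (fun b => f (m a b)) l (𝓝 (f a)) := (f.continuous.tendsto a).comp (hm a)
      have he := (Metric.tendsto_nhds.1 ht) (ε / 2) (by positivity)
      refine ⟨_, he, ?_⟩
      intro b hb b' hb'
      have hb1 : dist (f (m a b)) (f a) < ε / 2 := hb
      have hb2 : dist (f (m a b')) (f a) < ε / 2 := hb'
      rw [← dist_eq_norm]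
      show dist (f (m a b)) (f (m a b')) ≤ ε
      calc dist (f (m a b)) (f (m a b')) ≤ dist (f (m a b)) (f a) + dist (f (m a b')) (f a) :=
            dist_triangle_right _ _ _
        _ ≤ ε := by linarith
    | zero => intro ε hε; exact ⟨Set.univ, univ_mem, fun b _ b' _ => by simpa using hε.le⟩
    | add x y _ _ hx hy =>
      intro ε hε
      obtain ⟨s, hs, hsb⟩ := hx (ε / 2) (by positivity)
      obtain ⟨t, ht, htb⟩ := hy (ε / 2) (by positivity)
      refine ⟨s ∩ t, inter_mem hs ht, fun b hb b' hb' => ?_⟩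
      have e : (x + y) b - (x + y) b' = (x b - x b') + (y b - y b') := by
        simp only [add_apply]; ring
      rw [e]
      calc ‖(x b - x b') + (y b - y b')‖ ≤ ‖x b - x b'‖ + ‖y b - y b'‖ := norm_add_le _ _
        _ ≤ ε := by linarith [hsb b hb.1 b' hb'.1, htb b hb.2 b' hb'.2]
    | smul c x _ hx =>
      intro ε hε
      obtain ⟨s, hs, hsb⟩ := hx (ε / (‖c‖ + 1)) (by positivity)
      refine ⟨s, hs, fun b hb b' hb' => ?_⟩
      have e : (c • x) b - (c • x) b' = c * (x b - x b') := by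
        simp only [smul_apply, smul_eq_mul]; ring
      rw [e, norm_mul]
      calc ‖c‖ * ‖x b - x b'‖ ≤ ‖c‖ * (ε / (‖c‖ + 1)) :=
            mul_le_mul_of_nonneg_left (hsb b hb b' hb') (norm_nonneg _)
        _ ≤ ε := by
            rw [mul_div_assoc', div_le_iff₀ (by positivity)]
            nlinarith [norm_nonneg c]
  have key : ∀ w ∈ W, ∀ ε : ℝ, 0 < ε → ∃ s ∈ l, ∀ b ∈ s, ∀ b' ∈ s, ‖w b - w b'‖ ≤ ε := by
    intro w hw ε hε
    have hw' : w ∈ closure (W0 : Set (StrongDual ℂ A)) := by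
      rw [← Submodule.topologicalClosure_coe]; exact hw
    obtain ⟨w', hw'0, hww'⟩ := Metric.mem_closure_iff.1 hw' (ε / (3 * (M + 1))) (by positivity)
    obtain ⟨s, hs, hsb⟩ := key0 w' hw'0 (ε / 3) (by positivity)
    refine ⟨s ∩ {b | ‖b‖ ≤ M}, inter_mem hs hM, fun b hb b' hb' => ?_⟩
    have hd : ∀ b : A, ‖b‖ ≤ M → ‖w b - w' b‖ ≤ ε / 3 := by
      intro b hb
      have e : w b - w' b = (w - w') b := by simp
      rw [e]
      calc ‖(w - w') b‖ ≤ ‖w - w'‖ * ‖b‖ := (w - w').le_opNorm b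
        _ ≤ (ε / (3 * (M + 1))) * M := by
            rw [← dist_eq_norm]
            exact mul_le_mul hww'.le hb (norm_nonneg _) (by positivity)
        _ ≤ ε / 3 := by
            rw [div_mul_eq_mul_div, div_le_div_iff₀ (by positivity) (by positivity)]
            nlinarith
    have e : w b - w b' = (w b - w' b) + (w' b - w' b') + (w' b' - w b') := by ring
    rw [e]
    have h3 : ‖w' b' - w b'‖ ≤ ε / 3 := by rw [norm_sub_rev]; exact hd b' hb'.2
    calc ‖(w b - w' b) + (w' b - w' b') + (w' b' - w b')‖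
        ≤ ‖w b - w' b‖ + ‖w' b - w' b'‖ + ‖w' b' - w b'‖ := norm_add₃_le
      _ ≤ ε := by linarith [hd b hb.2, hsb b hb.1 b' hb'.1]
  have hhW : h ∉ W := by
    intro hh
    obtain ⟨s, hs, hsb⟩ := key h hh 1 one_pos
    obtain ⟨b, hb, hbs⟩ := (h1.and_eventually hs).exists
    obtain ⟨b', hb', hbs'⟩ := (h2.and_eventually hs).exists
    have := hsb b hbs b' hbs'
    rw [hb, hb'] at this
    norm_num at this
  -- Hahn-Banach
  have hWc : IsClosed (W : Set (StrongDual ℂ A)) := W0.isClosed_topologicalClosure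
  have hne : W.mkQL h ≠ 0 := by
    rw [Submodule.mkQL_apply]
    intro h0
    exact hhW ((Submodule.Quotient.mk_eq_zero W).1 h0)
  have hnn : (@norm (StrongDual ℂ A ⧸ W)
      (Submodule.Quotient.seminormedAddCommGroup W).toNorm (W.mkQL h)) ≠ 0 := by
    intro h0
    have h1 : (@norm (StrongDual ℂ A ⧸ W)
      (Submodule.Quotient.normedAddCommGroup W).toNorm (W.mkQL h)) = 0 := h0
    exact hne ((@norm_eq_zero (StrongDual ℂ A ⧸ W)
      (@NormedAddCommGroup.toNormedAddGroup _ (Submodule.Quotient.normedAddCommGroup W)) _).1 h1)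
  obtain ⟨φ, -, hφ⟩ := exists_dual_vector ℂ (W.mkQL h) hnn
  refine ⟨φ.comp W.mkQL, ?_, ?_⟩
  · intro h0
    have h3 : (φ.comp W.mkQL) h = 0 := by rw [h0]; rfl
    rw [ContinuousLinearMap.comp_apply, hφ] at h3
    exact hnn (RCLike.ofReal_eq_zero.1 h3)
  · intro Φ
    have hz : actA m (φ.comp W.mkQL) = 0 := by
      ext f a
      rw [actA_apply, ContinuousLinearMap.comp_apply]
      have : W.mkQL (dotA m f a) = 0 := by
        rw [Submodule.mkQL_apply]
        exact (Submodule.Quotient.mk_eq_zero W).2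
          (W0.le_topologicalClosure (Submodule.subset_span ⟨(f, a), rfl⟩))
      rw [this]; simp
    ext f
    rw [arens_apply, hz]
    simp

universe u

theorem n3 : _root_.Beur.TaskN1.{u} → _root_.Beur.TaskN2.{u} → _root_.Beur.TaskN3.{u} := by
  intro hN1 hN2 G _ _ _ _ _ _ _ μ _ _ ω hw m hm hnd
  obtain ⟨s, U, hsm, hs1, hU, hsU, hB⟩ := hN1 G μ hnd
  set ν : Measure G := μ.withDensity (fun s => ENNReal.ofReal (ω s)) with hν
  have hωm : Measurable ω := hw.cont.measurable
  have hfm : Measurable (fun s => ENNReal.ofReal (ω s)) := hωm.ennreal_ofReal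
  have hνμ : ν ≪ μ := withDensity_absolutelyContinuous μ _
  have hμν : μ ≪ ν := withDensity_absolutelyContinuous' hfm.aemeasurable
    (Eventually.of_forall fun x => by
      rw [Ne, ENNReal.ofReal_eq_zero, not_le]; exact hw.pos x)
  obtain ⟨M, hM⟩ := hU.exists_bound_of_continuousOn (f := ω) hw.cont.continuousOn
  obtain ⟨C, hC⟩ := hU.exists_bound_of_continuousOn (f := fun x => (ω x)⁻¹)
    ((hw.cont.inv₀ (fun x => (hw.pos x).ne')).continuousOn)
  -- the density of the functional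
  set g : G → ℂ := fun x => ((s x / ω x : ℝ) : ℂ) with hg
  have hgm : Measurable g := Complex.measurable_ofReal.comp (hsm.div hωm)
  have hgb : ∀ x, ‖g x‖ ≤ max C 0 := by
    intro x
    simp only [hg, Complex.norm_real, Real.norm_eq_abs]
    by_cases hx : x ∈ U
    · have h1 := hC x hx
      rw [Real.norm_eq_abs, abs_of_pos (inv_pos.2 (hw.pos x))] at h1
      rw [abs_div, abs_of_pos (hw.pos x), div_eq_mul_inv]
      calc |s x| * (ω x)⁻¹ ≤ 1 * (ω x)⁻¹ :=
            mul_le_mul_of_nonneg_right (hs1 x) (inv_pos.2 (hw.pos x)).le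
        _ ≤ C := by rw [one_mul]; exact h1
        _ ≤ max C 0 := le_max_left _ _
    · rw [hsU x hx]; simp
  have hgi : ∀ b : L1w μ ω, Integrable (fun x => g x * (b : G → ℂ) x) ν := fun b =>
    (L1.integrable_coeFn b).bdd_mul (c := max C 0) hgm.aestronglyMeasurable
      (Eventually.of_forall hgb)
  set h : StrongDual ℂ (L1w μ ω) := LinearMap.mkContinuous
    { toFun := fun b => ∫ x, g x * (b : G → ℂ) x ∂ν
      map_add' := by
        intro b b'
        rw [← integral_add (hgi b) (hgi b')]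
        apply integral_congr_ae
        filter_upwards [Lp.coeFn_add b b'] with x hx
        rw [hx, Pi.add_apply, mul_add]
      map_smul' := by
        intro c b
        rw [RingHom.id_apply, smul_eq_mul, ← integral_const_mul]
        apply integral_congr_ae
        filter_upwards [Lp.coeFn_smul c b] with x hx
        rw [hx, Pi.smul_apply, smul_eq_mul]; ring }
    (max C 0) (by
      intro b
      show ‖∫ x, g x * (b : G → ℂ) x ∂ν‖ ≤ _
      rw [L1.norm_eq_integral_norm b, ← integral_const_mul]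
      apply norm_integral_le_of_norm_le ((L1.integrable_coeFn b).norm.const_mul _)
      apply Eventually.of_forall
      intro x
      rw [norm_mul]
      exact mul_le_mul_of_nonneg_right (hgb x) (norm_nonneg _)) with hh
  have hh_apply : ∀ b : L1w μ ω, h b = ∫ x, g x * (b : G → ℂ) x ∂ν := fun b => rfl
  -- representatives
  set Rep : Set G → Set (L1w μ ω) := fun V => {b | ∃ B : Set G, MeasurableSet B ∧ B ⊆ V ∩ U ∧
    B⁻¹ = B ∧ 0 < μ B ∧ μ B < ⊤ ∧
    ((b : G → ℂ) =ᵐ[μ] B.indicator (fun _ => (((μ B).toReal)⁻¹ : ℂ)))} with hRep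
  have hmono : Monotone Rep := by
    rintro V V' hVV b ⟨B, h1, h2, h3⟩
    exact ⟨B, h1, h2.trans (inter_subset_inter_left U hVV), h3⟩
  have hnormRep : ∀ b ∈ Rep Set.univ, ‖b‖ ≤ M := by
    rintro b ⟨B, hBm, hBU, -, hB0, hBt, hb⟩
    have hbν : (b : G → ℂ) =ᵐ[ν] B.indicator (fun _ => (((μ B).toReal)⁻¹ : ℂ)) := hνμ.ae_eq hb
    have hBr : 0 < (μ B).toReal := ENNReal.toReal_pos hB0.ne' hBt.ne
    rw [L1.norm_eq_integral_norm b]
    have e1 : ∫ x, ‖(b : G → ℂ) x‖ ∂ν = ∫ x in B, ((μ B).toReal)⁻¹ ∂ν := by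
      rw [← integral_indicator hBm]
      apply integral_congr_ae
      filter_upwards [hbν] with x hx
      rw [hx]
      by_cases hxB : x ∈ B
      · rw [indicator_of_mem hxB, indicator_of_mem hxB, norm_inv, Complex.norm_real,
          Real.norm_of_nonneg hBr.le]
      · rw [indicator_of_notMem hxB, indicator_of_notMem hxB, norm_zero]
    rw [e1, hν, setIntegral_withDensity_eq_setIntegral_toReal_smul hfm
      (Eventually.of_forall fun x => ENNReal.ofReal_lt_top) _ hBm]
    have e2 : ∫ x in B, M * ((μ B).toReal)⁻¹ ∂μ = M := by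
      rw [setIntegral_const, smul_eq_mul, Measure.real]
      field_simp
    rw [← e2]
    have hfin : IsFiniteMeasure (μ.restrict B) := ⟨by rw [Measure.restrict_apply_univ]; exact hBt⟩
    apply integral_mono_of_nonneg
    · apply Eventually.of_forall
      intro x
      simp only [Pi.zero_apply, smul_eq_mul]
      positivity
    · exact integrable_const _
    · rw [EventuallyLE, ae_restrict_iff' hBm]
      apply Eventually.of_forall
      intro x hx
      have h1 := hM x (hBU hx).2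
      rw [Real.norm_of_nonneg (hw.pos x).le] at h1
      rw [smul_eq_mul, ENNReal.toReal_ofReal (hw.pos x).le]
      exact mul_le_mul_of_nonneg_right h1 (inv_pos.2 hBr).le
  have hval : ∀ (B : Set G) (b : L1w μ ω) (σ : ℝ), MeasurableSet B → 0 < μ B → μ B < ⊤ →
      ((b : G → ℂ) =ᵐ[μ] B.indicator (fun _ => (((μ B).toReal)⁻¹ : ℂ))) → (∀ x ∈ B, s x = σ) →
      h b = σ := by
    intro B b σ hBm hB0 hBt hb hσ
    have hbν : (b : G → ℂ) =ᵐ[ν] B.indicator (fun _ => (((μ B).toReal)⁻¹ : ℂ)) := hνμ.ae_eq hb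
    have hBr : 0 < (μ B).toReal := ENNReal.toReal_pos hB0.ne' hBt.ne
    rw [hh_apply]
    have e1 : ∫ x, g x * (b : G → ℂ) x ∂ν = ∫ x in B, g x * (((μ B).toReal)⁻¹ : ℂ) ∂ν := by
      rw [← integral_indicator hBm]
      apply integral_congr_ae
      filter_upwards [hbν] with x hx
      rw [hx]
      by_cases hxB : x ∈ B
      · rw [indicator_of_mem hxB, indicator_of_mem hxB]
      · rw [indicator_of_notMem hxB, indicator_of_notMem hxB, mul_zero]
    rw [e1, hν, setIntegral_withDensity_eq_setIntegral_toReal_smul hfm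
      (Eventually.of_forall fun x => ENNReal.ofReal_lt_top) _ hBm]
    have e3 : ∫ x in B, (ENNReal.ofReal (ω x)).toReal • (g x * (((μ B).toReal)⁻¹ : ℂ)) ∂μ =
        ∫ x in B, ((σ : ℂ) * (((μ B).toReal)⁻¹ : ℂ)) ∂μ := by
      apply setIntegral_congr_fun hBm
      intro x hx
      have hx0 : (ω x : ℂ) ≠ 0 := by exact_mod_cast (hw.pos x).ne'
      simp only [hg]
      rw [ENNReal.toReal_ofReal (hw.pos x).le, hσ x hx, Complex.real_smul, Complex.ofReal_div]
      field_simp
    rw [e3, setIntegral_const, Measure.real, Complex.real_smul]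
    have : ((μ B).toReal : ℂ) ≠ 0 := by exact_mod_cast hBr.ne'
    field_simp
  have hexRep : ∀ V ∈ 𝓝 (1 : G), ∀ B : Set G, MeasurableSet B → B ⊆ V ∩ U → B⁻¹ = B → 0 < μ B →
      μ B < ⊤ → ∃ b ∈ Rep V, ((b : G → ℂ) =ᵐ[μ] B.indicator (fun _ => (((μ B).toReal)⁻¹ : ℂ))) := by
    intro V _ B hBm hBV hBi hB0 hBt
    have hνB : ν B ≠ ⊤ := by
      rw [hν, withDensity_apply _ hBm]
      apply ne_of_lt
      calc ∫⁻ x in B, ENNReal.ofReal (ω x) ∂μ ≤ ∫⁻ x in B, ENNReal.ofReal M ∂μ := by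
            apply setLIntegral_mono' hBm
            intro x hx
            apply ENNReal.ofReal_le_ofReal
            exact (le_abs_self _).trans (hM x (hBV hx).2)
        _ = ENNReal.ofReal M * μ B := by rw [setLIntegral_const]
        _ < ⊤ := ENNReal.mul_lt_top ENNReal.ofReal_lt_top hBt
    have hb := indicatorConstLp_coeFn (p := 1) (hs := hBm) (hμs := hνB)
      (c := (((μ B).toReal)⁻¹ : ℂ))
    have hb' := hμν.ae_eq hb
    exact ⟨_, ⟨B, hBm, hBV, hBi, hB0, hBt, hb'⟩, hb'⟩
  apply abs_part m ((𝓝 (1 : G)).lift' Rep) M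
  · exact mem_of_superset (mem_lift' univ_mem) hnormRep
  · intro a
    rw [Metric.tendsto_nhds]
    intro ε hε
    obtain ⟨V, hV, hVB⟩ := hN2 G μ ω hw m hm a (ε / 2) (by positivity)
    apply mem_of_superset (mem_lift' hV)
    rintro b ⟨B, h1, h2, h3, h4, h5, h6⟩
    have := hVB B h1 (h2.trans inter_subset_left) h3 h4 h5 b h6
    show dist (m a b) a < ε
    rw [dist_eq_norm]
    linarith
  · rw [Filter.frequently_iff]
    intro S hS
    obtain ⟨V, hV, hVS⟩ := (mem_lift'_sets hmono).1 hS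
    obtain ⟨B, B', b1, -, b2, -, b3, -, b4, b5, -, -, b6, -⟩ := hB V hV
    obtain ⟨b, hb, hb'⟩ := hexRep V hV B b1 b2 b3 b4 b5
    refine ⟨b, hVS hb, ?_⟩
    have := hval B b 1 b1 b4 b5 hb' b6
    rw [this]; simp
  · rw [Filter.frequently_iff]
    intro S hS
    obtain ⟨V, hV, hVS⟩ := (mem_lift'_sets hmono).1 hS
    obtain ⟨B, B', -, b1, -, b2, -, b3, -, -, b4, b5, -, b6⟩ := hB V hV
    obtain ⟨b, hb, hb'⟩ := hexRep V hV B' b1 b2 b3 b4 b5
    refine ⟨b, hVS hb, ?_⟩
    have := hval B' b (-1) b1 b4 b5 hb' b6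
    rw [this]; simp

end Pool.Agent.H881R3.Beur
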